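import Pool.Agent.Q223.SI.Rga
import Pool.Agent.Q190.SI.Nrm

/-!
# The regulators of the trivial characters for `M/F` and for `F/F` (job RGB of project SI of helper20;
# plan of the proof by helper123)
-/

set_option autoImplicit false
set_option linter.unusedSectionVars false

namespace Pool.Agent.Q223.SI

open NumberField IsDedekindDomain Pool.Agent.Q20.RS Pool.Agent.Q20.SI
open Pool.Agent.Q176.SI (eps dual_eq det_of_equiv rep_one_dim fn_sum fn_smul fn_add xc_ext fn_zero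
  rep_fn Eig homdOf homdOf_eps homd_eig unt_mem)
open Pool.Agent.Q190.SI (exists_n exists_over logv_prod nrm)
open Representation (IntertwiningMap)
open NumberField.Units NumberField.Units.dirichletUnitTheorem

section one
variable {F : Type} [Field F] [NumberField F] {T : Finset (HeightOneSpectrum (𝓞 F))}

open scoped Classical in
/-- the determinant of a map which maps rational vectors to the basis of logarithm vectors -/
theorem det_rat (A : XC T →ₗ[ℂ] XC T) (c : Ix F T → XC T) (hc : ∀ i, A (c i) = bs T i)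
    (hrat : ∀ i, Rational (c i)) :
    ∃ s : ℚ, s ≠ 0 ∧ LinearMap.det A * (s : ℂ) = (eb T).det (bs T) := by
  classical
  choose r hr using hrat
  set C : Matrix (Ix F T) (Ix F T) ℚ := Matrix.of fun i j => match i with
    | .inl v => r j (.inr v.1)
    | .inr P => r j (.inl P.1) with hC
  have h1 : (eb T).det c = ((C.det : ℚ) : ℂ) := by
    rw [eb_det]
    have h2 : (Matrix.of fun i j => vls T (c j) i : Matrix (Ix F T) (Ix F T) ℂ) =
        C.map (Rat.castHom ℂ) := by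
      ext i j
      rcases i with v | P
      · exact hr j _
      · exact hr j _
    rw [h2]
    exact ((Rat.castHom ℂ).map_det C).symm
  have h4 : (eb T).det (A ∘ c) = LinearMap.det A * (eb T).det c := (eb T).det_comp A c
  have h5 : (A ∘ c) = bs T := funext hc
  rw [h5, h1] at h4
  refine ⟨C.det, fun h0 => ?_, h4.symm⟩
  have h3 := ((eb T).isUnit_det (bs T)).ne_zero
  rw [h4, h0] at h3
  simp at h3

theorem bs_unt (i : Ix F T) : ∃ u : F, IsUnt T u ∧ ∀ v, (bs T i).fn v = ((-logv u v : ℝ) : ℂ) := by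
  rcases i with v | P
  · exact ⟨_, (Pool.Agent.Q259.SI.unt_unit T (fundSystem F ((equivFinRank F).symm v))).1,
      fun w => bs_inl v w⟩
  · exact ⟨_, Pool.Agent.Q259.SI.gen_unt T (.inr P), fun w => bs_inr P w⟩

end one

section two
variable {F M : Type} [Field F] [NumberField F] [Field M] [NumberField M] [Algebra F M]
  {T : Finset (HeightOneSpectrum (𝓞 M))} {T₀ : Finset (HeightOneSpectrum (𝓞 F))}

/-- local degrees -/
structure Deg (F : Type) {M : Type} [Field F] [NumberField F] [Field M] [NumberField M]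
    [Algebra F M] (n : Pl M → ℕ) : Prop where
  pos : ∀ w, 0 < n w
  eq : ∀ (x : F) (w : Pl M), logv (algebraMap F M x) w = n w * logv x (dn F w)

/-- the pull-back of functions on the places -/
noncomputable def pull (T₀ : Finset (HeightOneSpectrum (𝓞 F))) (n : Pl M → ℕ) :
    XC T₀ →ₗ[ℂ] (Pl M → ℂ) where
  toFun := fun y w => (n w : ℂ) * y.fn (dn F w)
  map_add' := fun x y => by
    funext w
    change (n w : ℂ) * (x + y).fn (dn F w) = (n w : ℂ) * x.fn (dn F w) + (n w : ℂ) * y.fn (dn F w)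
    rw [fn_add]
    ring
  map_smul' := fun c x => by
    funext w
    change (n w : ℂ) * (c • x).fn (dn F w) = c * ((n w : ℂ) * x.fn (dn F w))
    rw [fn_smul]
    ring

theorem unt_up {n : Pl M → ℕ} (hn : Deg F n)
    (hTT : ∀ P : HeightOneSpectrum (𝓞 M), P ∈ T ↔ P.under (𝓞 F) ∈ T₀) {u : F}
    (hu : IsUnt T₀ u) : IsUnt T (algebraMap F M u) := by
  refine ⟨(_root_.map_ne_zero _).2 hu.1, fun w hw => ?_⟩
  have h1 : w.under (𝓞 F) ∉ T₀ := fun h => hw ((hTT w).2 h)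
  have h2 : logv u (.inl (w.under (𝓞 F))) = 0 := by
    change Real.log (NumberField.HeightOneSpectrum.adicAbv F (w.under (𝓞 F)) u) = 0
    rw [hu.2 _ h1, Real.log_one]
  have h3 := hn.eq u (.inl w)
  have h4 : dn F (Sum.inl w : Pl M) = .inl (w.under (𝓞 F)) := rfl
  rw [h4, h2, mul_zero] at h3
  have h5 : Real.log (NumberField.HeightOneSpectrum.adicAbv M w (algebraMap F M u)) = 0 := h3
  exact Real.eq_one_of_pos_of_log_eq_zero
    ((NumberField.HeightOneSpectrum.adicAbv M w).pos ((_root_.map_ne_zero _).2 hu.1)) h5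

theorem pull_log {n : Pl M → ℕ} (hn : Deg F n) {y : XC T₀} {u : F}
    (hu : ∀ v, y.fn v = ((-logv u v : ℝ) : ℂ)) (w : Pl M) :
    pull T₀ n y w = ((-logv (algebraMap F M u) w : ℝ) : ℂ) := by
  change (n w : ℂ) * y.fn (dn F w) = _
  rw [hu, hn.eq]
  push_cast
  ring

theorem pull_mem {n : Pl M → ℕ} (hn : Deg F n)
    (hTT : ∀ P : HeightOneSpectrum (𝓞 M), P ∈ T ↔ P.under (𝓞 F) ∈ T₀) (y : XC T₀) :
    pull T₀ n y ∈ XS T := by
  classical
  have h1 : ⊤ ≤ (XS T).comap (pull (M := M) T₀ n) := by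
    rw [← (bs T₀).span_eq, Submodule.span_le]
    rintro _ ⟨i, rfl⟩
    obtain ⟨u, hu, hu2⟩ := bs_unt (T := T₀) i
    have h2 : pull T₀ n (bs T₀ i) = fun w => ((-logv (algebraMap F M u) w : ℝ) : ℂ) :=
      funext fun w => pull_log hn hu2 w
    change pull T₀ n (bs T₀ i) ∈ XS T
    rw [h2]
    exact unt_mem (unt_up hn hTT hu)
  exact h1 (Submodule.mem_top (x := y))

/-- the map `j` -/
noncomputable def jj {n : Pl M → ℕ} (hn : Deg F n)
    (hTT : ∀ P : HeightOneSpectrum (𝓞 M), P ∈ T ↔ P.under (𝓞 F) ∈ T₀) : XC T₀ →ₗ[ℂ] XC T :=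
  (pull T₀ n).codRestrict (XS T) (pull_mem hn hTT)

theorem jj_fn {n : Pl M → ℕ} (hn : Deg F n)
    (hTT : ∀ P : HeightOneSpectrum (𝓞 M), P ∈ T ↔ P.under (𝓞 F) ∈ T₀) (y : XC T₀) (w : Pl M) :
    (jj hn hTT y).fn w = (n w : ℂ) * y.fn (dn F w) := rfl

theorem dn_surj (v : Pl F) : ∃ w : Pl M, dn F w = v := by
  rcases v with p | v
  · obtain ⟨P, hP⟩ := exists_over (N := M) p
    exact ⟨.inl P, congrArg Sum.inl hP⟩
  · obtain ⟨w, hw⟩ := InfinitePlace.comap_surjective (k := F) (K := M) v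
    exact ⟨.inr w, congrArg Sum.inr hw⟩

theorem jj_inj {n : Pl M → ℕ} (hn : Deg F n)
    (hTT : ∀ P : HeightOneSpectrum (𝓞 M), P ∈ T ↔ P.under (𝓞 F) ∈ T₀) :
    Function.Injective (jj hn hTT) := by
  rw [injective_iff_map_eq_zero]
  intro y hy
  refine xc_ext fun v => ?_
  obtain ⟨w, rfl⟩ := dn_surj (M := M) v
  have h1 := jj_fn hn hTT y w
  rw [hy, fn_zero] at h1
  rw [fn_zero]
  have h2 : (n w : ℂ) ≠ 0 := by exact_mod_cast (hn.pos w).ne'
  exact (mul_eq_zero.1 h1.symm).resolve_left h2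

theorem jj_rat {n : Pl M → ℕ} (hn : Deg F n)
    (hTT : ∀ P : HeightOneSpectrum (𝓞 M), P ∈ T ↔ P.under (𝓞 F) ∈ T₀) {y : XC T₀}
    (h : Rational (jj hn hTT y)) : Rational y := by
  intro v
  obtain ⟨w, rfl⟩ := dn_surj (M := M) v
  obtain ⟨q, hq⟩ := h w
  rw [jj_fn] at hq
  have h2 : (n w : ℂ) ≠ 0 := by exact_mod_cast (hn.pos w).ne'
  refine ⟨q / n w, ?_⟩
  push_cast
  rw [eq_div_iff h2, mul_comm]
  exact hq

theorem jj_bs {n : Pl M → ℕ} (hn : Deg F n)
    (hTT : ∀ P : HeightOneSpectrum (𝓞 M), P ∈ T ↔ P.under (𝓞 F) ∈ T₀) (i : Ix F T₀) :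
    ∃ u : F, IsUnt T (algebraMap F M u) ∧ ∀ w, (jj hn hTT (bs T₀ i)).fn w =
      ((-logv (algebraMap F M u) w : ℝ) : ℂ) := by
  obtain ⟨u, hu, hu2⟩ := bs_unt (T := T₀) i
  exact ⟨u, unt_up hn hTT hu, fun w => pull_log hn hu2 w⟩

theorem jj_bs_inv (hT : Stable F T) {n : Pl M → ℕ} (hn : Deg F n)
    (hTT : ∀ P : HeightOneSpectrum (𝓞 M), P ∈ T ↔ P.under (𝓞 F) ∈ T₀) (i : Ix F T₀)
    (g : M ≃ₐ[F] M) : XRep hT g (jj hn hTT (bs T₀ i)) = jj hn hTT (bs T₀ i) := by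
  obtain ⟨u, -, hu2⟩ := jj_bs hn hTT i
  refine xc_ext fun w => ?_
  rw [rep_fn, hu2, hu2, ← logv_pact g (pact g⁻¹ w), Pool.Agent.Q176.SI.pact_pact_inv, g.commutes]

theorem jj_inv (hT : Stable F T) {n : Pl M → ℕ} (hn : Deg F n)
    (hTT : ∀ P : HeightOneSpectrum (𝓞 M), P ∈ T ↔ P.under (𝓞 F) ∈ T₀) (y : XC T₀)
    (g : M ≃ₐ[F] M) : XRep hT g (jj hn hTT y) = jj hn hTT y := by
  have h1 : (XRep hT g) ∘ₗ (jj hn hTT) = jj hn hTT :=
    (bs T₀).ext fun i => jj_bs_inv hT hn hTT i g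
  exact LinearMap.congr_fun h1 y

theorem eig_one {hT : Stable F T} {x : XC T} :
    Eig hT (1 : (M ≃ₐ[F] M) →* ℂˣ) x ↔ ∀ g, XRep hT g x = x := by
  unfold Eig
  refine forall_congr' fun g => ?_
  have h1 : cf (1 : (M ≃ₐ[F] M) →* ℂˣ) g = 1 := by
    unfold cf
    rw [MonoidHom.one_apply, Units.val_one]
  rw [h1, inv_one, one_smul]

/-- invariant vectors are in the image of `j` -/
theorem jj_surj [IsGalois F M] (hT : Stable F T) {n : Pl M → ℕ} (hn : Deg F n)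
    (hTT : ∀ P : HeightOneSpectrum (𝓞 M), P ∈ T ↔ P.under (𝓞 F) ∈ T₀) {x : XC T}
    (hx : ∀ g, XRep hT g x = x) : ∃ y, jj hn hTT y = x := by
  classical
  have h0 : ∀ i : Ix M T, ∃ y : XC T₀, jj hn hTT y = ∑ g : M ≃ₐ[F] M, XRep hT g (bs T i) := by
    intro i
    obtain ⟨u, hu, hu2⟩ := bs_unt (T := T) i
    have hN : IsUnt T₀ (Algebra.norm F u) :=
      (nrm F F M).2 T₀ T u (fun P hP => (hTT P).1 hP) hu
    refine ⟨⟨_, unt_mem hN⟩, xc_ext fun w => ?_⟩
    rw [fn_sum]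
    have h1 : ∀ g : M ≃ₐ[F] M, (XRep hT g (bs T i)).fn w = ((-logv (g u) w : ℝ) : ℂ) := by
      intro g
      rw [rep_fn, hu2, ← logv_pact g (pact g⁻¹ w), Pool.Agent.Q176.SI.pact_pact_inv]
    rw [Finset.sum_congr rfl fun g _ => h1 g]
    have h2 : logv (algebraMap F M (Algebra.norm F u)) w = ∑ g : M ≃ₐ[F] M, logv (g u) w := by
      rw [Algebra.norm_eq_prod_automorphisms, logv_prod]
      intro g _
      exact (_root_.map_ne_zero _).2 hu.1
    have h3 := pull_log (T₀ := T₀) (n := n) hn (y := ⟨_, unt_mem hN⟩) (u := Algebra.norm F u)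
      (fun v => rfl) w
    change pull T₀ n _ w = _
    rw [h3, h2]
    push_cast
    rw [Finset.sum_neg_distrib]
  choose y hy using h0
  have hG : (Fintype.card (M ≃ₐ[F] M) : ℂ) ≠ 0 := by exact_mod_cast Fintype.card_ne_zero
  have h5 : (Fintype.card (M ≃ₐ[F] M) : ℂ) • x = jj hn hTT (∑ i, ((bs T).repr x i) • y i) := by
    have h6 : ∑ g : M ≃ₐ[F] M, XRep hT g x = (Fintype.card (M ≃ₐ[F] M) : ℂ) • x := by
      rw [Finset.sum_congr rfl fun g _ => hx g, Finset.sum_const, Finset.card_univ,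
        ← Nat.cast_smul_eq_nsmul ℂ]
    rw [← h6, map_sum]
    conv_lhs =>
      enter [2, g]
      rw [← (bs T).sum_repr x, map_sum]
    rw [Finset.sum_comm]
    refine Finset.sum_congr rfl fun i _ => ?_
    rw [map_smul, hy, Finset.smul_sum]
    refine Finset.sum_congr rfl fun g _ => ?_
    rw [map_smul]
  refine ⟨(Fintype.card (M ≃ₐ[F] M) : ℂ)⁻¹ • ∑ i, ((bs T).repr x i) • y i, ?_⟩
  rw [map_smul, ← h5, smul_smul, inv_mul_cancel₀ hG, one_smul]

/-- `y ↦ (φ ↦ φ(1) j y)` -/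
noncomputable def kk (hT : Stable F T) {n : Pl M → ℕ} (hn : Deg F n)
    (hTT : ∀ P : HeightOneSpectrum (𝓞 M), P ∈ T ↔ P.under (𝓞 F) ∈ T₀)
    (ρ : Representation ℂ (M ≃ₐ[F] M) (Fin 1 → ℂ))
    (hρ : ∀ g, ρ.character g = cf (1 : (M ≃ₐ[F] M) →* ℂˣ) g) :
    XC T₀ →ₗ[ℂ] HomD ρ (XRep hT) where
  toFun := fun y => homdOf hT ρ hρ (jj hn hTT y) (eig_one.2 (jj_inv hT hn hTT y))
  map_add' := fun x y => by
    refine IntertwiningMap.toLinearMap_injective _ _ (LinearMap.ext fun φ => ?_)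
    change φ (fun _ => 1) • jj hn hTT (x + y) =
      φ (fun _ => 1) • jj hn hTT x + φ (fun _ => 1) • jj hn hTT y
    rw [map_add, smul_add]
  map_smul' := fun c x => by
    refine IntertwiningMap.toLinearMap_injective _ _ (LinearMap.ext fun φ => ?_)
    change φ (fun _ => 1) • jj hn hTT (c • x) = c • φ (fun _ => 1) • jj hn hTT x
    rw [map_smul, smul_comm]

theorem kk_eps (hT : Stable F T) {n : Pl M → ℕ} (hn : Deg F n)
    (hTT : ∀ P : HeightOneSpectrum (𝓞 M), P ∈ T ↔ P.under (𝓞 F) ∈ T₀)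
    (ρ : Representation ℂ (M ≃ₐ[F] M) (Fin 1 → ℂ))
    (hρ : ∀ g, ρ.character g = cf (1 : (M ≃ₐ[F] M) →* ℂˣ) g) (y : XC T₀) :
    IntertwiningMap.toLinearMap (kk hT hn hTT ρ hρ y) eps = jj hn hTT y :=
  homdOf_eps hT ρ hρ _ (eig_one.2 (jj_inv hT hn hTT y))

theorem kk_bij [IsGalois F M] (hT : Stable F T) {n : Pl M → ℕ} (hn : Deg F n)
    (hTT : ∀ P : HeightOneSpectrum (𝓞 M), P ∈ T ↔ P.under (𝓞 F) ∈ T₀)
    (ρ : Representation ℂ (M ≃ₐ[F] M) (Fin 1 → ℂ))
    (hρ : ∀ g, ρ.character g = cf (1 : (M ≃ₐ[F] M) →* ℂˣ) g) :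
    Function.Bijective (kk hT hn hTT ρ hρ) := by
  constructor
  · intro x y hxy
    refine jj_inj hn hTT ?_
    rw [← kk_eps hT hn hTT ρ hρ, ← kk_eps hT hn hTT ρ hρ, hxy]
  · intro f
    have h1 : Eig hT (1 : (M ≃ₐ[F] M) →* ℂˣ) (IntertwiningMap.toLinearMap f eps) :=
      homd_eig hT ρ hρ f
    obtain ⟨y, hy⟩ := jj_surj hT hn hTT (eig_one.1 h1)
    refine ⟨y, IntertwiningMap.toLinearMap_injective _ _ (LinearMap.ext fun φ => ?_)⟩
    change IntertwiningMap.toLinearMap (kk hT hn hTT ρ hρ y) φ = IntertwiningMap.toLinearMap f φ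
    rw [dual_eq φ, map_smul, map_smul, kk_eps, hy]

end two

theorem rgb : S_RGB := by
  classical
  intro F M _ _ _ _ _ _ T hT θ T₀ hT₀ θ₀ hTT n ρ hρ n₀ ρ₀ hρ₀
  have hn1 : n = 1 := by
    have h2 := hρ 1
    rw [Representation.char_one, Module.finrank_fin_fun] at h2
    exact_mod_cast h2
  have hn0 : n₀ = 1 := by
    have h2 := hρ₀ 1
    rw [Representation.char_one, Module.finrank_fin_fun] at h2
    exact_mod_cast h2
  subst hn1
  subst hn0
  rw [regul_eq]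
  obtain ⟨d, hd1, hd2⟩ := exists_n (M := F) (N := M)
  have hd : Deg F d := ⟨hd1, hd2⟩
  have hρ' : ∀ g, ρ.character g = cf (1 : (M ≃ₐ[F] M) →* ℂˣ) g := fun g => by
    rw [hρ]
    unfold cf
    rw [MonoidHom.one_apply, Units.val_one]
  -- the map `A`
  set K : XC T₀ ≃ₗ[ℂ] HomD ρ (XRep hT) :=
    LinearEquiv.ofBijective (kk hT hd hTT ρ hρ') (kk_bij hT hd hTT ρ hρ') with hK
  set A : XC T₀ →ₗ[ℂ] XC T₀ :=
    (K.symm : HomD ρ (XRep hT) →ₗ[ℂ] XC T₀) ∘ₗ postD ρ (XRep hT) θ.map ∘ₗ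
      (K : XC T₀ →ₗ[ℂ] HomD ρ (XRep hT)) with hA
  have hdet : LinearMap.det A = regul ρ (XRep hT) θ.map :=
    LinearMap.det_conj (postD ρ (XRep hT) θ.map) K.symm
  have hjA : ∀ y, jj hd hTT (A y) = θ.map (jj hd hTT y) := by
    intro y
    have h1 : K (A y) = postD ρ (XRep hT) θ.map (K y) := by
      rw [hA]
      simp only [LinearMap.coe_comp, Function.comp_apply, LinearEquiv.coe_coe,
        LinearEquiv.apply_symm_apply]
    have h2 := congrArg (fun f : HomD ρ (XRep hT) => IntertwiningMap.toLinearMap f eps) h1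
    have h3 : IntertwiningMap.toLinearMap (K (A y)) eps = jj hd hTT (A y) :=
      kk_eps hT hd hTT ρ hρ' _
    have h4 : IntertwiningMap.toLinearMap (postD ρ (XRep hT) θ.map (K y)) eps =
        θ.map (IntertwiningMap.toLinearMap (K y) eps) := rfl
    have h5 : IntertwiningMap.toLinearMap (K y) eps = jj hd hTT y := kk_eps hT hd hTT ρ hρ' _
    rw [← h3, ← h5, ← h4]
    exact h2
  -- rational preimages
  have hy : ∀ i, ∃ y : XC T₀, A y = bs T₀ i ∧ Rational y := by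
    intro i
    obtain ⟨x, hx⟩ := θ.bijective.2 (jj hd hTT (bs T₀ i))
    have hxinv : ∀ g, XRep hT g x = x := by
      intro g
      refine θ.bijective.1 ?_
      rw [θ.map.isIntertwining, hx]
      exact jj_bs_inv hT hd hTT i g
    obtain ⟨y, hy⟩ := jj_surj hT hd hTT hxinv
    refine ⟨y, jj_inj hd hTT ?_, jj_rat hd hTT ?_⟩
    · rw [hjA, hy]
      exact hx
    · rw [hy]
      refine (θ.rational _).2 ?_
      have hx' : θ.map x = jj hd hTT (bs T₀ i) := hx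
      rw [hx']
      obtain ⟨u, hu, hu2⟩ := jj_bs hd hTT i
      exact ⟨1, one_pos, _, hu.1, hu.2, fun w => by rw [Nat.cast_one, one_mul, hu2]⟩
  choose y hy1 hy2 using hy
  obtain ⟨s, hs0, hs⟩ := det_rat A y hy1 hy2
  -- the map for `F/F`
  set Θ : XC T₀ →ₗ[ℂ] XC T₀ := IntertwiningMap.toLinearMap θ₀.map with hΘ
  have hc : ∀ i, ∃ c : XC T₀, Θ c = bs T₀ i ∧ Rational c := by
    intro i
    obtain ⟨c, hc⟩ := θ₀.bijective.2 (bs T₀ i)
    refine ⟨c, hc, (θ₀.rational _).2 ?_⟩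
    have hc' : θ₀.map c = bs T₀ i := hc
    rw [hc']
    obtain ⟨u, hu, hu2⟩ := bs_unt (T := T₀) i
    exact ⟨1, one_pos, _, hu.1, hu.2, fun w => by rw [Nat.cast_one, one_mul, hu2]⟩
  choose c hc1 hc2 using hc
  obtain ⟨s', hs0', hs'⟩ := det_rat Θ c hc1 hc2
  have hsc : (s : ℂ) ≠ 0 := by exact_mod_cast hs0
  refine ⟨s' / s, div_ne_zero hs0' hs0, ?_⟩
  rw [← hdet]
  have h6 : LinearMap.det A = LinearMap.det Θ * (s' : ℂ) / (s : ℂ) := by
    rw [eq_div_iff hsc, hs, hs']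
  rw [h6]
  push_cast
  ring

end Pool.Agent.Q223.SI
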