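import Pool.Agent.Q20.SI.Stm3
import Pool.Agent.Q176.SI.Reg
import Pool.Agent.Q259.SI.Tun

/-!
# The regulator of the trivial character for `F/F` (job RGA of project SI of helper20)
-/

set_option autoImplicit false
set_option linter.unusedSectionVars false

namespace Pool.Agent.Q223.SI

open NumberField IsDedekindDomain Pool.Agent.Q20.RS Pool.Agent.Q20.SI
open Pool.Agent.Q176.SI (eps dual_eq det_of_equiv rep_one_dim fn_sum fn_smul fn_add xc_ext fn_zero)
open Representation (IntertwiningMap)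
open NumberField.Units NumberField.Units.dirichletUnitTheorem

variable {F : Type} [Field F] [NumberField F] {T : Finset (HeightOneSpectrum (𝓞 F))}

theorem gal_one (g : F ≃ₐ[F] F) : g = 1 := by
  ext x
  exact g.commutes x

/-- the homomorphism with a given value -/
noncomputable def hom1 (hT : Stable F T) (ρ : Representation ℂ (F ≃ₐ[F] F) (Fin 1 → ℂ))
    (x : XC T) : IntertwiningMap ρ.dual (XRep hT) :=
  ⟨LinearMap.toSpanSingleton ℂ (XC T) x ∘ₗ Module.Dual.eval ℂ (Fin 1 → ℂ) (fun _ => 1), by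
    intro g
    obtain rfl := gal_one g
    rw [map_one, map_one]
    rfl⟩

/-- evaluation at the coordinate functional -/
noncomputable def ev1 (hT : Stable F T) (ρ : Representation ℂ (F ≃ₐ[F] F) (Fin 1 → ℂ)) :
    HomD ρ (XRep hT) →ₗ[ℂ] XC T where
  toFun := fun f => IntertwiningMap.toLinearMap f eps
  map_add' := fun _ _ => rfl
  map_smul' := fun _ _ => rfl

theorem ev1_bij (hT : Stable F T) (ρ : Representation ℂ (F ≃ₐ[F] F) (Fin 1 → ℂ)) :
    Function.Bijective (ev1 hT ρ) := by
  constructor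
  · rw [injective_iff_map_eq_zero]
    intro f hf
    have h1 : (IntertwiningMap.toLinearMap f eps : XC T) = 0 := hf
    refine IntertwiningMap.toLinearMap_injective _ _ (LinearMap.ext fun φ => ?_)
    change IntertwiningMap.toLinearMap f φ = 0
    rw [dual_eq φ, map_smul, h1, smul_zero]
  · intro x
    refine ⟨hom1 hT ρ x, ?_⟩
    change (eps (fun _ => 1) : ℂ) • x = x
    change (1 : ℂ) • x = x
    rw [one_smul]

theorem regul_eq (hT : Stable F T) (ρ : Representation ℂ (F ≃ₐ[F] F) (Fin 1 → ℂ))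
    (θ : IntertwiningMap (XRep hT) (XRep hT)) :
    regul ρ (XRep hT) θ = LinearMap.det (IntertwiningMap.toLinearMap θ) := by
  unfold regul
  rw [← LinearMap.det_conj (postD ρ (XRep hT) θ) (LinearEquiv.ofBijective (ev1 hT ρ) (ev1_bij hT ρ))]
  congr 1
  refine LinearMap.ext fun x => ?_
  obtain ⟨f, rfl⟩ := (LinearEquiv.ofBijective (ev1 hT ρ) (ev1_bij hT ρ)).surjective x
  simp only [LinearMap.coe_comp, Function.comp_apply, LinearEquiv.coe_coe,
    LinearEquiv.symm_apply_apply]
  rfl

variable (F) in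
/-- indices -/
abbrev Ix (T : Finset (HeightOneSpectrum (𝓞 F))) : Type :=
  {w : InfinitePlace F // w ≠ w₀} ⊕ T

variable (T) in
/-- the values -/
noncomputable def vls : XC T →ₗ[ℂ] (Ix F T → ℂ) where
  toFun := fun x i => match i with
    | .inl v => x.fn (.inr v.1)
    | .inr P => x.fn (.inl P.1)
  map_add' := fun x y => by
    funext i
    cases i <;> rfl
  map_smul' := fun c x => by
    funext i
    cases i <;> rfl

theorem vls_inj : Function.Injective (vls T) := by
  classical
  rw [injective_iff_map_eq_zero]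
  intro x hx
  have hp : ∀ w : HeightOneSpectrum (𝓞 F), x.fn (.inl w) = 0 := by
    intro w
    by_cases hw : w ∈ T
    · exact congrFun hx (.inr ⟨w, hw⟩)
    · exact x.2.1 w hw
  have hi : ∀ v : InfinitePlace F, v ≠ w₀ → x.fn (.inr v) = 0 := fun v hv =>
    congrFun hx (.inl ⟨v, hv⟩)
  refine xc_ext fun v => ?_
  rw [fn_zero]
  rcases v with w | v
  · exact hp w
  · by_cases hv : v = w₀
    · have h1 : ∑ w ∈ T, x.fn (.inl w) + ∑ v : InfinitePlace F, x.fn (.inr v) = 0 := x.2.2
      have h2 : ∑ w ∈ T, x.fn (.inl w) = 0 := Finset.sum_eq_zero fun w _ => hp w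
      rw [h2, zero_add] at h1
      rw [← h1]
      exact (Finset.sum_eq_single v (fun w _ hw => hi w fun h => hw (h.trans hv.symm))
        (fun h => absurd (Finset.mem_univ _) h)).symm
    · exact hi v hv

open scoped Classical in
variable (T) in
/-- the basis of logarithm vectors -/
noncomputable def bs : Module.Basis (Ix F T) ℂ (XC T) :=
  (Pool.Agent.Q259.SI.bas T).reindex (Equiv.sumCongr (equivFinRank F) (Equiv.refl T))

open scoped Classical in
theorem bs_apply (i : Ix F T) : bs T i =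
    Pool.Agent.Q259.SI.vecs T ((Equiv.sumCongr (equivFinRank F) (Equiv.refl T)).symm i) := by
  unfold bs
  rw [Module.Basis.reindex_apply, Pool.Agent.Q259.SI.bas_apply]

open scoped Classical in
theorem bs_inl (i : {w : InfinitePlace F // w ≠ w₀}) (v : Pl F) : (bs T (.inl i)).fn v =
    ((-logv (((fundSystem F ((equivFinRank F).symm i) : (𝓞 F)ˣ) : 𝓞 F) : F) v : ℝ) : ℂ) := by
  rw [bs_apply]
  rfl

open scoped Classical in
theorem bs_inr (P : T) (v : Pl F) : (bs T (.inr P)).fn v =
    ((-logv (Pool.Agent.Q259.SI.gen T (.inr P)) v : ℝ) : ℂ) := by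
  rw [bs_apply]
  rfl

open scoped Classical in
theorem vls_bij : Function.Bijective (vls T) := by
  refine ⟨vls_inj, ?_⟩
  have : FiniteDimensional ℂ (XC T) := (bs T).finiteDimensional_of_finite
  have h : Module.finrank ℂ (XC T) = Module.finrank ℂ (Ix F T → ℂ) := by
    rw [Module.finrank_eq_card_basis (bs T), Module.finrank_fintype_fun_eq_card]
  exact (LinearMap.injective_iff_surjective_of_finrank_eq_finrank h).1 vls_inj

open scoped Classical in
variable (T) in
/-- the coordinates given by the values -/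
noncomputable def eb : Module.Basis (Ix F T) ℂ (XC T) :=
  Module.Basis.ofEquivFun (LinearEquiv.ofBijective (vls T) vls_bij)

open scoped Classical in
theorem eb_det (v : Ix F T → XC T) :
    (eb T).det v = (Matrix.of fun i j => vls T (v j) i : Matrix (Ix F T) (Ix F T) ℂ).det := by
  rw [Module.Basis.det_apply]
  rfl

/-- integral multiples of `log N P` -/
theorem gen_log (P : T) : ∃ n : ℤ, n ≠ 0 ∧ logv (Pool.Agent.Q259.SI.gen T (.inr P)) (.inl P.1) =
    n * Real.log (Ideal.absNorm P.1.asIdeal) := by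
  obtain ⟨n, hn⟩ := Pool.Agent.Q259.SI.av_log P.1 (Pool.Agent.Q259.SI.gen_unt T (.inr P)).1
  have h1 := Pool.Agent.Q259.SI.gen_inr_eq T P
  have h2 : logv (Pool.Agent.Q259.SI.gen T (.inr P)) (.inl P.1) =
      n * Real.log (Ideal.absNorm P.1.asIdeal) := hn
  refine ⟨n, ?_, h2⟩
  rintro rfl
  rw [h2] at h1
  simp at h1

open scoped Classical in
theorem det_bs : ∃ q : ℚ, q ≠ 0 ∧ (eb T).det (bs T) = (q : ℂ) * ((Units.regulator F : ℝ) : ℂ) *
      ∏ v ∈ T, ((Real.log (Ideal.absNorm v.asIdeal) : ℝ) : ℂ) := by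
  choose n hn0 hn using gen_log (F := F) (T := T)
  rw [eb_det]
  set A : Matrix {w : InfinitePlace F // w ≠ w₀} {w : InfinitePlace F // w ≠ w₀} ℂ :=
    Matrix.of fun v i =>
      ((-logv (((fundSystem F ((equivFinRank F).symm i) : (𝓞 F)ˣ) : 𝓞 F) : F) (.inr v.1) : ℝ) : ℂ)
    with hA
  set B : Matrix {w : InfinitePlace F // w ≠ w₀} T ℂ :=
    Matrix.of fun v P => ((-logv (Pool.Agent.Q259.SI.gen T (.inr P)) (.inr v.1) : ℝ) : ℂ) with hB
  set D : Matrix T T ℂ := Matrix.diagonal fun P =>
    ((-((n P : ℝ) * Real.log (Ideal.absNorm P.1.asIdeal)) : ℝ) : ℂ) with hD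
  have h1 : (Matrix.of fun i j => vls T (bs T j) i : Matrix (Ix F T) (Ix F T) ℂ) =
      Matrix.fromBlocks A B 0 D := by
    ext i j
    rcases i with v | P <;> rcases j with w | Q
    · change (bs T (.inl w)).fn (.inr v.1) = _
      rw [bs_inl]
      rfl
    · change (bs T (.inr Q)).fn (.inr v.1) = _
      rw [bs_inr]
      rfl
    · change (bs T (.inl w)).fn (.inl P.1) = 0
      rw [bs_inl, Pool.Agent.Q259.SI.logv_unit_prime]
      simp
    · change (bs T (.inr Q)).fn (.inl P.1) = D P Q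
      rw [bs_inr, hD, Matrix.diagonal_apply]
      split_ifs with h
      · subst h
        rw [hn]
      · rw [Pool.Agent.Q259.SI.gen_inr_ne T Q P.1 fun h' => h (Subtype.ext h')]
        simp
  rw [h1, Matrix.det_fromBlocks_zero₂₁, hD, Matrix.det_diagonal]
  -- the archimedean block
  have h2 : ∃ s : ℚ, s ≠ 0 ∧ A.det = (s : ℂ) * ((Units.regulator F : ℝ) : ℂ) := by
    set R : Matrix {w : InfinitePlace F // w ≠ w₀} {w : InfinitePlace F // w ≠ w₀} ℝ :=
      Matrix.of fun i w => (w.val.mult : ℝ) *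
        Real.log (w.val (fundSystem F ((equivFinRank F).symm i) : F)) with hR
    have h3 : regulator F = |R.det| := regulator_eq_det F w₀ (equivFinRank F).symm
    have h4 : A = ((-R).map Complex.ofRealHom).transpose := by
      ext i j
      simp only [hA, hR, Matrix.transpose_apply, Matrix.map_apply, Matrix.neg_apply, Matrix.of_apply]
      rfl
    have h5 : A.det = (((-1) ^ (Fintype.card {w : InfinitePlace F // w ≠ w₀}) * R.det : ℝ) : ℂ) := by
      rw [h4, Matrix.det_transpose]
      have h6 := (Complex.ofRealHom.map_det (-R)).symm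
      rw [RingHom.mapMatrix_apply] at h6
      rw [h6, Matrix.det_neg]
      rfl
    rcases abs_choice R.det with h | h
    · refine ⟨(-1) ^ (Fintype.card {w : InfinitePlace F // w ≠ w₀}), by simp, ?_⟩
      rw [h5, h3, h]
      push_cast
      rfl
    · refine ⟨-(-1) ^ (Fintype.card {w : InfinitePlace F // w ≠ w₀}), by simp, ?_⟩
      rw [h5, h3, h]
      push_cast
      ring
  obtain ⟨s, hs0, hs⟩ := h2
  refine ⟨s * ∏ P : T, (-(n P : ℚ)), mul_ne_zero hs0 (Finset.prod_ne_zero_iff.2 fun P _ =>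
    neg_ne_zero.2 (by exact_mod_cast hn0 P)), ?_⟩
  have h7 : ∏ v ∈ T, ((Real.log (Ideal.absNorm v.asIdeal) : ℝ) : ℂ) =
      ∏ P : T, ((Real.log (Ideal.absNorm P.1.asIdeal) : ℝ) : ℂ) :=
    (Finset.prod_coe_sort T fun v => ((Real.log (Ideal.absNorm v.asIdeal) : ℝ) : ℂ)).symm
  have h8 : ∏ P : T, ((-((n P : ℝ) * Real.log (Ideal.absNorm P.1.asIdeal)) : ℝ) : ℂ) =
      (∏ P : T, (-(n P : ℂ))) * ∏ P : T, ((Real.log (Ideal.absNorm P.1.asIdeal) : ℝ) : ℂ) := by
    rw [← Finset.prod_mul_distrib]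
    refine Finset.prod_congr rfl fun P _ => ?_
    rw [Complex.ofReal_neg, Complex.ofReal_mul, Complex.ofReal_intCast]
    ring
  have h9 : ((s * ∏ P : T, (-(n P : ℚ)) : ℚ) : ℂ) = (s : ℂ) * ∏ P : T, (-(n P : ℂ)) := by
    push_cast
    rfl
  rw [hs, h7, h8, h9]
  ring

open scoped Classical in
theorem rga : S_RGA := by
  intro F _ _ T hT θ n ρ hρ
  have hn : n = 1 := by
    have h2 := hρ 1
    rw [Representation.char_one, Module.finrank_fin_fun] at h2
    exact_mod_cast h2
  subst hn
  rw [regul_eq]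
  obtain ⟨q, hq0, hq⟩ := det_bs (F := F) (T := T)
  -- preimages of the basis
  set Θ : XC T →ₗ[ℂ] XC T := IntertwiningMap.toLinearMap θ.map with hΘ
  have hbij : Function.Bijective Θ := θ.bijective
  set E : XC T ≃ₗ[ℂ] XC T := LinearEquiv.ofBijective Θ hbij with hE
  set c : Module.Basis (Ix F T) ℂ (XC T) := (bs T).map E.symm with hc
  have hc1 : ∀ i, Θ (c i) = bs T i := fun i => by
    rw [hc, Module.Basis.map_apply]
    exact E.apply_symm_apply (bs T i)
  have hlog : ∀ i, LogUnit (bs T i) := by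
    intro i
    rcases i with v | P
    · obtain ⟨h1, h2⟩ := (Pool.Agent.Q259.SI.unt_unit T (fundSystem F ((equivFinRank F).symm v))).1
      exact ⟨1, one_pos, _, h1, h2, fun w => by rw [Nat.cast_one, one_mul, bs_inl]⟩
    · obtain ⟨h1, h2⟩ := Pool.Agent.Q259.SI.gen_unt T (.inr P)
      exact ⟨1, one_pos, _, h1, h2, fun w => by rw [Nat.cast_one, one_mul, bs_inr]⟩
  have hrat : ∀ i, Rational (c i) := fun i => (θ.rational _).2 (by
    have h1 : θ.map (c i) = bs T i := hc1 i
    rw [h1]
    exact hlog i)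
  choose r hr using hrat
  have hdc : ∃ s : ℚ, s ≠ 0 ∧ (eb T).det c = (s : ℂ) := by
    set C : Matrix (Ix F T) (Ix F T) ℚ := Matrix.of fun i j => match i with
      | .inl v => r j (.inr v.1)
      | .inr P => r j (.inl P.1) with hC
    have h1 : (eb T).det c = ((C.det : ℚ) : ℂ) := by
      rw [eb_det]
      have h2 : (Matrix.of fun i j => vls T (c j) i : Matrix (Ix F T) (Ix F T) ℂ) =
          C.map (Rat.castHom ℂ) := by
        ext i j
        rcases i with v | P
        · exact hr j _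
        · exact hr j _
      rw [h2]
      exact ((Rat.castHom ℂ).map_det C).symm
    refine ⟨C.det, fun h0 => ?_, h1⟩
    have h3 := ((eb T).isUnit_det c).ne_zero
    rw [h1, h0] at h3
    simp at h3
  obtain ⟨s, hs0, hs⟩ := hdc
  have h4 : (eb T).det (Θ ∘ c) = LinearMap.det Θ * (eb T).det c := (eb T).det_comp Θ c
  have h5 : (Θ ∘ c) = bs T := funext hc1
  rw [h5, hq, hs] at h4
  have hs' : (s : ℂ) ≠ 0 := by exact_mod_cast hs0
  refine ⟨q / s, div_ne_zero hq0 hs0, ?_⟩
  have h6 : LinearMap.det Θ = ((q : ℂ) * ((Units.regulator F : ℝ) : ℂ) *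
      ∏ v ∈ T, ((Real.log (Ideal.absNorm v.asIdeal) : ℝ) : ℂ)) / (s : ℂ) := by
    rw [eq_div_iff hs']
    exact h4.symm
  rw [h6]
  push_cast
  ring

end Pool.Agent.Q223.SI
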